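import Mathlib

set_option autoImplicit false

open Finset Filter MeasureTheory Topology

namespace Pool.Agent.H.MP_8ac988_an

lemma geom_bound (w : ℂ) (hw : ‖w‖ = 1) (h1 : w ≠ 1) (N : ℕ) :
    ‖∑ i ∈ range N, w ^ i‖ ≤ 2 / ‖w - 1‖ := by
  rw [geom_sum_eq h1, norm_div]
  have : ‖w ^ N - 1‖ ≤ 2 := by
    calc _ ≤ ‖w ^ N‖ + ‖(1 : ℂ)‖ := norm_sub_le _ _
      _ = 2 := by rw [norm_pow, hw]; norm_num
  gcongr

lemma sq_sub_one (u : ℂ) (hu : ‖u‖ = 1) : ‖u - 1‖ ^ 2 = 2 - 2 * u.re := by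
  have h : u.re ^ 2 + u.im ^ 2 = 1 := by
    have := Complex.sq_norm u
    rw [hu, Complex.normSq_apply] at this
    nlinarith
  rw [Complex.sq_norm, Complex.normSq_apply]
  simp only [Complex.sub_re, Complex.one_re, Complex.sub_im, Complex.one_im]
  nlinarith

lemma three (x y z s : ℝ) (hs : 0 ≤ s) (h : s ≤ x + y + z) :
    s ^ 2 ≤ 3 * (x ^ 2 + y ^ 2 + z ^ 2) := by
  have : s ^ 2 ≤ (x + y + z) ^ 2 := by gcongr
  nlinarith [sq_nonneg (x - y), sq_nonneg (y - z), sq_nonneg (x - z)]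

lemma oneD (a ψ : ℕ → ℂ) (c w : ℂ) (h : ℕ) (M : ℝ) (ha : ∀ i, ‖a i‖ = 1) (hc : ‖c‖ = 1)
    (hw : ‖w‖ = 1) (h1 : w ≠ 1) (hs : ∀ i, a (i + h) = a i * (c * w ^ i))
    (hψ : ∀ i, ‖ψ (i + h) - ψ i‖ ≤ 1 / 4) (hM : ∀ i, ‖ψ i‖ ≤ M) (N : ℕ) :
    (3 / 10 : ℝ) * N - (1 / ‖w - 1‖ + h * (1 + M) ^ 2) ≤ ∑ i ∈ range N, ‖a i - ψ i‖ ^ 2 := by
  have e1 : ∀ i, ‖a (i + h) - a i‖ ^ 2 = 2 - 2 * (c * w ^ i).re := by
    intro i
    rw [hs, ← mul_sub_one, norm_mul, ha, one_mul, sq_sub_one]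
    rw [norm_mul, norm_pow, hc, hw]; simp
  have e2 : ∑ i ∈ range N, ‖a (i + h) - a i‖ ^ 2 = 2 * N - 2 * (c * ∑ i ∈ range N, w ^ i).re := by
    simp only [e1, sum_sub_distrib, sum_const, card_range, nsmul_eq_mul, mul_sum, Complex.re_sum]
    ring
  have e3 : (c * ∑ i ∈ range N, w ^ i).re ≤ 2 / ‖w - 1‖ := by
    refine (Complex.re_le_norm _).trans ?_
    rw [norm_mul, hc, one_mul]
    exact geom_bound w hw h1 N
  have e4 : ∀ i, ‖a (i + h) - a i‖ ^ 2 ≤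
      3 * (‖a (i + h) - ψ (i + h)‖ ^ 2 + (1 / 4) ^ 2 + ‖a i - ψ i‖ ^ 2) := by
    intro i
    refine three _ _ _ _ (norm_nonneg _) ?_
    have : a (i + h) - a i = (a (i + h) - ψ (i + h)) + (ψ (i + h) - ψ i) - (a i - ψ i) := by ring
    rw [this]
    have t1 := norm_sub_le ((a (i + h) - ψ (i + h)) + (ψ (i + h) - ψ i)) (a i - ψ i)
    have t2 := norm_add_le (a (i + h) - ψ (i + h)) (ψ (i + h) - ψ i)
    have t3 := hψ i
    linarith
  have e5 : ∑ i ∈ range N, ‖a (i + h) - ψ (i + h)‖ ^ 2 ≤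
      ∑ i ∈ range N, ‖a i - ψ i‖ ^ 2 + h * (1 + M) ^ 2 := by
    have b1 : ∀ i, ‖a i - ψ i‖ ^ 2 ≤ (1 + M) ^ 2 := by
      intro i
      have := norm_sub_le (a i) (ψ i)
      have := hM i
      have := ha i
      have : ‖a i - ψ i‖ ≤ 1 + M := by linarith
      gcongr
    have s1 := sum_range_add (fun i => ‖a i - ψ i‖ ^ 2) h N
    have s2 := sum_range_add (fun i => ‖a i - ψ i‖ ^ 2) N h
    rw [add_comm h N, s2] at s1
    have s3 : ∑ i ∈ range h, ‖a (N + i) - ψ (N + i)‖ ^ 2 ≤ h * (1 + M) ^ 2 := by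
      calc _ ≤ ∑ _i ∈ range h, (1 + M) ^ 2 := sum_le_sum fun i _ => b1 _
        _ = _ := by simp
    have s4 : 0 ≤ ∑ i ∈ range h, ‖a i - ψ i‖ ^ 2 := sum_nonneg fun i _ => by positivity
    have s5 : ∑ i ∈ range N, ‖a (i + h) - ψ (i + h)‖ ^ 2 =
        ∑ i ∈ range N, ‖a (h + i) - ψ (h + i)‖ ^ 2 :=
      sum_congr rfl fun i _ => by rw [add_comm]
    linarith
  have e6 : ∑ i ∈ range N, ‖a (i + h) - a i‖ ^ 2 ≤
      3 * (∑ i ∈ range N, ‖a (i + h) - ψ (i + h)‖ ^ 2 + N * (1 / 4) ^ 2 +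
        ∑ i ∈ range N, ‖a i - ψ i‖ ^ 2) := by
    refine (sum_le_sum fun i _ => e4 i).trans (le_of_eq ?_)
    rw [← mul_sum, sum_add_distrib, sum_add_distrib]
    simp
  have p1 : 0 ≤ 1 / ‖w - 1‖ := by positivity
  have p2 : (0 : ℝ) ≤ h * (1 + M) ^ 2 := by positivity
  have p3 : 2 / ‖w - 1‖ = 2 * (1 / ‖w - 1‖) := by ring
  have p4 : (0 : ℝ) ≤ N := by positivity
  linarith

/-- almost periods of continuous functions on a compact group -/
lemma almost_period {Y : Type} [CommGroup Y] [TopologicalSpace Y] [IsTopologicalGroup Y]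
    [CompactSpace Y] (Ψ : C(Y, ℂ)) (t : Y) (δ : ℝ) (hδ : 0 < δ) :
    ∃ h : ℕ, 1 ≤ h ∧ ∀ y, ‖Ψ (t ^ h * y) - Ψ y‖ ≤ δ := by
  let Φ : C(Y, C(Y, ℂ)) := ContinuousMap.curry ⟨fun q : Y × Y => Ψ (q.1 * q.2), by fun_prop⟩
  have hK : IsCompact (Set.range Φ) := isCompact_range Φ.continuous
  obtain ⟨L, -, φ, hφ, hL⟩ := hK.tendsto_subseq (x := fun n : ℕ => Φ (t ^ n))
    (fun n => ⟨_, rfl⟩)
  obtain ⟨N, hN⟩ := Metric.cauchySeq_iff.1 hL.cauchySeq δ hδ
  have h1 := hN (N + 1) (by omega) N le_rfl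
  have h2 : φ N < φ (N + 1) := hφ (Nat.lt_succ_self N)
  refine ⟨φ (N + 1) - φ N, by omega, fun y => ?_⟩
  have h3 := ((Φ (t ^ φ (N + 1))).dist_apply_le_dist (g := Φ (t ^ φ N))
    ((t ^ φ N)⁻¹ * y)).trans h1.le
  rw [dist_eq_norm] at h3
  have e1 : Φ (t ^ φ (N + 1)) ((t ^ φ N)⁻¹ * y) = Ψ (t ^ (φ (N + 1) - φ N) * y) := by
    show Ψ (t ^ φ (N + 1) * ((t ^ φ N)⁻¹ * y)) = _
    rw [pow_sub _ h2.le, mul_assoc]
  have e2 : Φ (t ^ φ N) ((t ^ φ N)⁻¹ * y) = Ψ y := by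
    show Ψ (t ^ φ N * ((t ^ φ N)⁻¹ * y)) = _
    rw [mul_inv_cancel_left]
  rwa [e1, e2] at h3

/-- squares -/
noncomputable def sq (N : ℕ) : Finset (ℤ × ℤ) := Icc (1 : ℤ) (N + 1) ×ˢ Icc (1 : ℤ) (N + 1)

lemma sq_card (N : ℕ) : #(sq N) = (N + 1) * (N + 1) := by
  simp [sq]

lemma sum_Icc (F : ℤ → ℝ) (N : ℕ) :
    ∑ m ∈ Icc (1 : ℤ) (N + 1), F m = ∑ i ∈ range (N + 1), F (1 + i) := by
  rw [Int.Icc_eq_finset_map, sum_map]
  have : ((N : ℤ) + 1 + 1 - 1).toNat = N + 1 := by omega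
  rw [this]
  rfl

lemma sq_folner (k : ℤ × ℤ) :
    Tendsto (fun j => (#(symmDiff ((sq j).image (· + k)) (sq j)) : ℝ) / #(sq j)) atTop (𝓝 0) := by
  obtain ⟨K, hK1, hK2⟩ : ∃ K : ℕ, |k.1| ≤ K ∧ |k.2| ≤ K :=
    ⟨k.1.natAbs + k.2.natAbs, by push_cast; linarith [abs_nonneg k.2],
      by push_cast; linarith [abs_nonneg k.1]⟩
  rw [abs_le] at hK1 hK2
  have hb : ∀ᶠ j : ℕ in atTop,
      (#(symmDiff ((sq j).image (· + k)) (sq j)) : ℝ) / #(sq j) ≤ 8 * K / ((j : ℝ) + 1) := by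
    filter_upwards [eventually_ge_atTop (2 * K)] with j hj
    obtain ⟨r, rfl⟩ := Nat.exists_eq_add_of_le hj
    set j := 2 * K + r with hjd
    have hsub : symmDiff ((sq j).image (· + k)) (sq j) ⊆
        (Icc (1 - K : ℤ) (j + 1 + K) ×ˢ Icc (1 - K : ℤ) (j + 1 + K)) \
          (Icc (1 + K : ℤ) (j + 1 - K) ×ˢ Icc (1 + K : ℤ) (j + 1 - K)) := by
      intro p hp
      rw [mem_symmDiff] at hp
      have himg : p ∈ (sq j).image (· + k) ↔ p - k ∈ sq j := by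
        rw [mem_image]
        exact ⟨fun ⟨q, hq, e⟩ => by rw [← e]; simpa using hq, fun h => ⟨p - k, h, by simp⟩⟩
      rw [himg] at hp
      refine Finset.mem_sdiff.2 ?_
      simp only [sq, mem_product, mem_Icc, Prod.fst_sub, Prod.snd_sub] at hp ⊢
      omega
    have hc := card_le_card hsub
    rw [card_sdiff_of_subset (product_subset_product (Icc_subset_Icc (by omega) (by omega))
      (Icc_subset_Icc (by omega) (by omega)))] at hc
    simp only [card_product, Int.card_Icc] at hc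
    have e1 : ((j : ℤ) + 1 + K + 1 - (1 - K)).toNat = r + 1 + 4 * K := by omega
    have e2 : ((j : ℤ) + 1 - K + 1 - (1 + K)).toNat = r + 1 := by omega
    rw [e1, e2] at hc
    have e3 : (r + 1 + 4 * K) * (r + 1 + 4 * K) - (r + 1) * (r + 1) = 8 * K * (j + 1) := by
      rw [hjd]
      apply Nat.sub_eq_of_eq_add
      ring
    rw [e3] at hc
    have hc' : (#(symmDiff ((sq j).image (· + k)) (sq j)) : ℝ) ≤ 8 * K * ((j : ℝ) + 1) := by
      exact_mod_cast hc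
    rw [sq_card]
    push_cast
    rw [div_le_div_iff₀ (by positivity) (by positivity)]
    have : (0 : ℝ) ≤ (j : ℝ) + 1 := by positivity
    nlinarith
  have ht : Tendsto (fun j : ℕ => 8 * (K : ℝ) / ((j : ℝ) + 1)) atTop (𝓝 0) :=
    tendsto_const_nhds.div_atTop (tendsto_atTop_add_const_right _ _ tendsto_natCast_atTop_atTop)
  exact squeeze_zero' (Eventually.of_forall fun j => by positivity) hb ht

/-- the character of the circle -/
noncomputable def E (z : UnitAddCircle) : ℂ := (AddCircle.toCircle z : ℂ)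

lemma E_add (z w : UnitAddCircle) : E (z + w) = E z * E w := by
  simp [E, AddCircle.toCircle_add]

lemma E_norm (z : UnitAddCircle) : ‖E z‖ = 1 := by simp [E]

lemma E_cont : Continuous E := continuous_subtype_val.comp AddCircle.continuous_toCircle

lemma E_nsmul (z : UnitAddCircle) (n : ℕ) : E (n • z) = E z ^ n := by
  induction n with
  | zero => simp [E]
  | succ n ih => rw [succ_nsmul, E_add, ih, pow_succ]

lemma E_eq_one (z : UnitAddCircle) (h : E z = 1) : z = 0 := by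
  apply AddCircle.injective_toCircle one_ne_zero
  rw [AddCircle.toCircle_zero]
  exact Subtype.ext h

noncomputable def al : UnitAddCircle := ((Real.sqrt 2 : ℝ) : UnitAddCircle)

lemma al_free (n : ℤ) (h : n • al = 0) : n = 0 := by
  by_contra hn
  rw [al, ← AddCircle.coe_zsmul, AddCircle.coe_eq_zero_iff] at h
  obtain ⟨m, hm⟩ := h
  have h1 : Irrational ((n : ℝ) * Real.sqrt 2) := irrational_sqrt_two.intCast_mul hn
  simp only [zsmul_eq_mul, mul_one] at hm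
  exact h1.ne_int m hm.symm

abbrev X := UnitAddCircle × UnitAddCircle

instance : IsProbabilityMeasure (volume : Measure UnitAddCircle) := ⟨UnitAddCircle.measure_univ⟩

noncomputable def mu : Measure X := (volume : Measure UnitAddCircle).prod volume

instance : IsProbabilityMeasure mu := by unfold mu; infer_instance

/-- the action of the plane lattice -/
noncomputable def act (m n : ℤ) (p : X) : X :=
  (p.1 + (m - n) • al, p.2 + ((2 * (m - n)) • p.1 + ((m - n) ^ 2 + n) • al))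

lemma act_zero (p : X) : act 0 0 p = p := by simp [act]

lemma act_add (m n m' n' : ℤ) (p : X) : act m n (act m' n' p) = act (m + m') (n + n') p := by
  simp only [act]
  refine Prod.ext ?_ ?_
  · simp only; module
  · simp only; module

lemma act_mp (m n : ℤ) : MeasurePreserving (act m n) mu mu := by
  refine (measurePreserving_add_right (volume : Measure UnitAddCircle) ((m - n) • al)).skew_product
    (g := fun x y => y + ((2 * (m - n)) • x + ((m - n) ^ 2 + n) • al)) ?_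
    (ae_of_all _ fun x => map_add_right_eq_self _ _)
  refine Continuous.measurable ?_
  show Continuous fun q : X => q.2 + ((2 * (m - n)) • q.1 + ((m - n) ^ 2 + n) • al)
  fun_prop

noncomputable def Tq (m n : ℤ) : X ≃ᵐ X where
  toFun := act m n
  invFun := act (-m) (-n)
  left_inv p := by rw [act_add]; simp [act_zero]
  right_inv p := by rw [act_add]; simp [act_zero]
  measurable_toFun := (act_mp m n).measurable
  measurable_invFun := (act_mp (-m) (-n)).measurable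

noncomputable def hom : Multiplicative (ℤ × ℤ) →* Equiv.Perm X where
  toFun v := (Tq (Multiplicative.toAdd v).1 (Multiplicative.toAdd v).2).toEquiv
  map_one' := Equiv.ext fun p => act_zero p
  map_mul' _ _ := Equiv.ext fun p => (act_add _ _ _ _ p).symm

lemma Tq_pow (m n : ℤ) (p : X) :
    ((Tq 1 0).toEquiv ^ m * (Tq 0 1).toEquiv ^ n : Equiv.Perm X) p = act m n p := by
  have h1 : ((Tq 1 0).toEquiv : Equiv.Perm X) = hom (Multiplicative.ofAdd (1, 0)) := rfl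
  have h2 : ((Tq 0 1).toEquiv : Equiv.Perm X) = hom (Multiplicative.ofAdd (0, 1)) := rfl
  rw [h1, h2, ← map_zpow hom, ← map_zpow hom, ← map_mul hom, ← ofAdd_zsmul, ← ofAdd_zsmul,
    ← ofAdd_add]
  show act _ _ p = _
  simp

lemma corr (m n : ℤ) :
    ∫ p, E ((-2 : ℤ) • p.2) * E (act m n p).2 * E (act n m p).2 ∂mu =
      E ((2 * (m - n) ^ 2 + (m + n)) • al) := by
  have : ∀ p : X, E ((-2 : ℤ) • p.2) * E (act m n p).2 * E (act n m p).2 =
      E ((2 * (m - n) ^ 2 + (m + n)) • al) := by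
    intro p
    rw [← E_add, ← E_add]
    congr 1
    simp only [act]
    module
  simp only [this]
  simp

lemma far {Y : Type} [CommGroup Y] [TopologicalSpace Y] [IsTopologicalGroup Y]
    [CompactSpace Y] (Ψ : C(Y, ℂ)) (s t : Y) :
    ∀ᶠ j in atTop, (1 / 4 : ℝ) ≤ (∑ p ∈ sq j,
      ‖E ((2 * (p.1 - p.2) ^ 2 + (p.1 + p.2)) • al) - Ψ (s ^ p.1 * t ^ p.2)‖ ^ 2) / #(sq j) := by
  obtain ⟨h, h1, hh⟩ := almost_period Ψ s (1 / 4) (by norm_num)
  set w := E ((4 * h : ℤ) • al) with hw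
  have hw1 : w ≠ 1 := fun e => by
    have := al_free _ (E_eq_one _ e)
    omega
  set K := 1 / ‖w - 1‖ + h * (1 + ‖Ψ‖) ^ 2 with hK
  have key : ∀ (n : ℤ) (N : ℕ), (3 / 10 : ℝ) * (N + 1 : ℕ) - K ≤ ∑ m ∈ Icc (1 : ℤ) (N + 1),
      ‖E ((2 * (m - n) ^ 2 + (m + n)) • al) - Ψ (s ^ m * t ^ n)‖ ^ 2 := by
    intro n N
    rw [sum_Icc]
    refine oneD (fun i => E ((2 * ((1 + i : ℤ) - n) ^ 2 + ((1 + i) + n)) • al))
      (fun i => Ψ (s ^ (1 + i : ℤ) * t ^ n)) (E ((4 * h * (1 - n) + 2 * h ^ 2 + h : ℤ) • al)) w h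
      ‖Ψ‖ (fun _ => E_norm _) (E_norm _) (E_norm _) hw1 (fun i => ?_) (fun i => ?_)
      (fun i => Ψ.norm_coe_le_norm _) (N + 1)
    · rw [hw, ← E_nsmul, ← E_add, ← E_add]
      congr 1
      rw [← natCast_zsmul]
      push_cast
      module
    · have := hh (s ^ (1 + i : ℤ) * t ^ n)
      have e : s ^ (1 + ((i + h : ℕ) : ℤ)) * t ^ n = s ^ h * (s ^ (1 + i : ℤ) * t ^ n) := by
        rw [← mul_assoc, ← zpow_natCast, ← zpow_add]
        congr 2
        push_cast; ring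
      rw [e]; exact this
  have ev : ∀ᶠ j : ℕ in atTop, 20 * K ≤ (j : ℝ) :=
    tendsto_natCast_atTop_atTop.eventually_ge_atTop _
  filter_upwards [ev] with j hj
  rw [sq_card, sq, sum_product_right, le_div_iff₀ (by positivity)]
  have : ∑ n ∈ Icc (1 : ℤ) (j + 1), ((3 / 10 : ℝ) * (j + 1 : ℕ) - K) ≤
      ∑ n ∈ Icc (1 : ℤ) (j + 1), ∑ m ∈ Icc (1 : ℤ) (j + 1),
      ‖E ((2 * (m - n) ^ 2 + (m + n)) • al) - Ψ (s ^ m * t ^ n)‖ ^ 2 :=
    sum_le_sum fun n _ => key n j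
  refine le_trans ?_ this
  rw [sum_const, Int.card_Icc, show ((j : ℤ) + 1 + 1 - 1).toNat = j + 1 by omega, nsmul_eq_mul]
  push_cast
  have : (0 : ℝ) ≤ j := by positivity
  nlinarith

end Pool.Agent.H.MP_8ac988_an
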